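import Mathlib

set_option autoImplicit false

namespace Pool.Agent.Y367.Arb

open Finset

section Ssd

variable {T : Type*} [DecidableEq T]

/-- All subset sums of `g` over subsets of `S` are distinct. -/
def SSD (S : Finset T) (g : T → ℝ) : Prop :=
  ∀ A B : Finset T, A ⊆ S → B ⊆ S → ∑ t ∈ A, g t = ∑ t ∈ B, g t → A = B

omit [DecidableEq T] in
lemma SSD.mono {S S' : Finset T} {g : T → ℝ} (h : SSD S g) (hs : S' ⊆ S) : SSD S' g :=
  fun A B hA hB => h A B (hA.trans hs) (hB.trans hs)

lemma SSD.extend {S : Finset T} {g : T → ℝ} (h : SSD S g) (t : T) (ht : t ∉ S) {a b : ℝ}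
    (hab : a < b) : ∃ y, a < y ∧ y < b ∧ SSD (insert t S) (Function.update g t y) := by
  classical
  let bad : Finset ℝ := (S.powerset ×ˢ S.powerset).image
    (fun p => ∑ x ∈ p.1, g x - ∑ x ∈ p.2, g x)
  obtain ⟨y, hy, hyb⟩ := (Set.Ioo_infinite hab).exists_notMem_finset bad
  refine ⟨y, hy.1, hy.2, ?_⟩
  have key : ∀ A : Finset T, A ⊆ insert t S →
      ∑ x ∈ A, Function.update g t y x = (if t ∈ A then y else 0) + ∑ x ∈ A.erase t, g x := by
    intro A hA
    by_cases htA : t ∈ A
    · rw [← Finset.add_sum_erase _ _ htA, if_pos htA, Function.update_self]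
      congr 1
      refine Finset.sum_congr rfl fun x hx => ?_
      rw [Function.update_of_ne (Finset.ne_of_mem_erase hx)]
    · rw [if_neg htA, zero_add, Finset.erase_eq_of_notMem htA]
      refine Finset.sum_congr rfl fun x hx => ?_
      rw [Function.update_of_ne]
      rintro rfl
      exact htA hx
  have sub : ∀ A : Finset T, A ⊆ insert t S → A.erase t ⊆ S := by
    intro A hA x hx
    rcases Finset.mem_insert.1 (hA (Finset.mem_of_mem_erase hx)) with h1 | h1
    · exact absurd h1 (Finset.ne_of_mem_erase hx)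
    · exact h1
  intro A B hA hB hAB
  rw [key A hA, key B hB] at hAB
  have hE : A.erase t = B.erase t → (t ∈ A ↔ t ∈ B) → A = B := by
    intro h1 h2
    ext x
    by_cases hx : x = t
    · subst hx; exact h2
    · have := Finset.ext_iff.1 h1 x
      simpa [hx] using this
  by_cases h1 : t ∈ A <;> by_cases h2 : t ∈ B
  · rw [if_pos h1, if_pos h2] at hAB
    exact hE (h _ _ (sub A hA) (sub B hB) (by linarith)) (by simp [h1, h2])
  · exfalso
    rw [if_pos h1, if_neg h2] at hAB
    apply hyb
    refine Finset.mem_image.2 ⟨(B.erase t, A.erase t), ?_, ?_⟩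
    · exact Finset.mk_mem_product (Finset.mem_powerset.2 (sub B hB))
        (Finset.mem_powerset.2 (sub A hA))
    · simp only; linarith
  · exfalso
    rw [if_neg h1, if_pos h2] at hAB
    apply hyb
    refine Finset.mem_image.2 ⟨(A.erase t, B.erase t), ?_, ?_⟩
    · exact Finset.mk_mem_product (Finset.mem_powerset.2 (sub A hA))
        (Finset.mem_powerset.2 (sub B hB))
    · simp only; linarith
  · rw [if_neg h1, if_neg h2] at hAB
    exact hE (h _ _ (sub A hA) (sub B hB) (by linarith)) (by simp [h1, h2])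

lemma SSD.extend_many {S : Finset T} {g : T → ℝ} (h : SSD S g) (R : Finset T)
    (hR : Disjoint S R) (c : T → ℝ) {ε : ℝ} (hε : 0 < ε) :
    ∃ g' : T → ℝ, (∀ t, t ∉ R → g' t = g t) ∧ (∀ t ∈ R, |g' t - c t| < ε) ∧ SSD (S ∪ R) g' := by
  classical
  induction R using Finset.induction_on with
  | empty => exact ⟨g, fun _ _ => rfl, by simp, by simpa using h⟩
  | insert t R ht ih =>
    obtain ⟨g', h1, h2, h3⟩ := ih (Disjoint.mono_right (Finset.subset_insert _ _) hR)
    have htS : t ∉ S ∪ R := by
      rw [Finset.mem_union, not_or]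
      refine ⟨fun hh => ?_, ht⟩
      exact (Finset.disjoint_left.1 hR hh) (Finset.mem_insert_self _ _)
    obtain ⟨y, hy1, hy2, hy3⟩ := h3.extend t htS (a := c t - ε) (b := c t + ε) (by linarith)
    refine ⟨Function.update g' t y, ?_, ?_, ?_⟩
    · intro s hs
      rw [Finset.mem_insert, not_or] at hs
      rw [Function.update_of_ne hs.1, h1 s hs.2]
    · intro s hs
      by_cases hst : s = t
      · subst hst
        rw [Function.update_self, abs_lt]
        constructor <;> linarith
      · rw [Function.update_of_ne hst]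
        exact h2 s ((Finset.mem_insert.1 hs).resolve_left hst)
    · rw [Finset.union_insert]
      exact hy3

end Ssd

section Diff

variable {I : Type*} [Fintype I] [DecidableEq I]

/-- Weight of a path, listed from its last vertex to its first one. -/
def Pw (w : I → I → ℝ) : List I → ℝ
  | [] => 0
  | [_] => 0
  | b :: a :: l => w a b + Pw w (a :: l)

omit [Fintype I] [DecidableEq I] in
lemma Pw_append (w : I → I → ℝ) (b : I) (d : List I) :
    ∀ (c : List I), Pw w (c ++ b :: d) = Pw w (c ++ [b]) + Pw w (b :: d)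
  | [] => by simp [Pw]
  | [x] => by simp [Pw]
  | x :: y :: l => by
    have := Pw_append w b d (y :: l)
    simp only [List.cons_append, Pw] at this ⊢
    rw [this]; ring

/-- Feasibility of a system of difference constraints without positive cycles. -/
theorem exists_diff_potential (E : I → I → Prop) (w : I → I → ℝ)
    (hcyc : ∀ (x y : I) (l : List I), (x :: (l ++ [y])).Nodup →
      List.IsChain (fun b a => E a b) (x :: (l ++ [y])) → E x y →
      w x y + Pw w (x :: (l ++ [y])) ≤ 0) :
    ∃ v : I → ℝ, ∀ a b, a ≠ b → E a b → v a + w a b ≤ v b := by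
  classical
  let L : I → Finset {l : List I // l.Nodup} := fun j =>
    Finset.univ.filter (fun l => l.1.head? = some j ∧ List.IsChain (fun b a => E a b) l.1)
  have hL : ∀ j, (L j).Nonempty := fun j =>
    ⟨⟨[j], List.nodup_singleton j⟩, by simp [L]⟩
  let v : I → ℝ := fun j => (L j).sup' (hL j) (fun l => Pw w l.1)
  have hv : ∀ j (l : List I) (hn : (j :: l).Nodup),
      List.IsChain (fun b a => E a b) (j :: l) → Pw w (j :: l) ≤ v j := by
    intro j l hn hc
    exact Finset.le_sup' (fun l : {l : List I // l.Nodup} => Pw w l.1)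
      (show (⟨j :: l, hn⟩ : {l : List I // l.Nodup}) ∈ L j by simp [L, hc])
  refine ⟨v, fun a b hab hE => ?_⟩
  obtain ⟨l, hl, hlv⟩ := Finset.exists_mem_eq_sup' (hL a)
    (fun l : {l : List I // l.Nodup} => Pw w l.1)
  obtain ⟨l, hnd⟩ := l
  simp only [L, Finset.mem_filter, Finset.mem_univ, true_and] at hl
  obtain ⟨l', rfl⟩ : ∃ l', l = a :: l' := by
    cases l with
    | nil => simp at hl
    | cons x l' =>
      simp only [List.head?_cons, Option.some.injEq] at hl
      exact ⟨l', by rw [hl.1]⟩
  have hva : v a = Pw w (a :: l') := hlv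
  rw [hva]
  by_cases hb : b ∈ l'
  · obtain ⟨c, d, rfl⟩ := List.append_of_mem hb
    have e1 : Pw w (a :: (c ++ b :: d)) = Pw w ((a :: c) ++ [b]) + Pw w (b :: d) := by
      have := Pw_append w b d (a :: c)
      simpa using this
    have hch := hl.2
    have e2 : a :: (c ++ b :: d) = (a :: (c ++ [b])) ++ d := by simp
    have hnd1 : (a :: (c ++ [b])).Nodup := by
      rw [e2] at hnd
      exact hnd.of_append_left
    have hch1 : List.IsChain (fun b a => E a b) (a :: (c ++ [b])) := by
      rw [e2] at hch
      exact (List.isChain_append.1 hch).1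
    have hnd2 : (b :: d).Nodup := by
      have e3 : a :: (c ++ b :: d) = (a :: c) ++ (b :: d) := by simp
      rw [e3] at hnd
      exact hnd.of_append_right
    have hch2 : List.IsChain (fun b a => E a b) (b :: d) := by
      have e3 : a :: (c ++ b :: d) = (a :: c) ++ (b :: d) := by simp
      rw [e3] at hch
      exact (List.isChain_append.1 hch).2.1
    have h1 := hcyc a b c hnd1 hch1 hE
    have h2 := hv b d hnd2 hch2
    have e4 : Pw w ((a :: c) ++ [b]) = Pw w (a :: (c ++ [b])) := by simp
    rw [e1, e4]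
    linarith
  · have hnd' : (b :: a :: l').Nodup := by
      rw [List.nodup_cons]
      refine ⟨?_, hnd⟩
      simp only [List.mem_cons, not_or]
      exact ⟨fun h => hab h.symm, hb⟩
    have hch' : List.IsChain (fun b a => E a b) (b :: a :: l') := by
      rw [List.isChain_cons_cons]
      exact ⟨hE, hl.2⟩
    have := hv b (a :: l') hnd' hch'
    simp only [Pw] at this
    linarith

omit [Fintype I] [DecidableEq I] in
lemma zip_sum (w : I → I → ℝ) (y : I) : ∀ (l : List I) (x : I) (hne : x :: l ≠ []),
    (List.zipWith w (l ++ [y]) (x :: l)).sum = Pw w (x :: l) + w y ((x :: l).getLast hne)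
  | [], x, _ => by simp [Pw]
  | z :: l, x, _ => by
    have := zip_sum w y l z (by simp)
    simp only [List.cons_append, List.zipWith_cons_cons, List.sum_cons, Pw]
    rw [this, List.getLast_cons (by simp : z :: l ≠ [])]
    ring

omit [Fintype I] [DecidableEq I] in
lemma Pw_add_const (w : I → I → ℝ) (ε : ℝ) (hε : 0 ≤ ε) :
    ∀ l : List I, Pw (fun a b => w a b + ε) l ≤ Pw w l + l.length * ε
  | [] => by simp [Pw]
  | [x] => by simp [Pw, hε]
  | x :: y :: l => by
    have := Pw_add_const w ε hε (y :: l)
    simp only [Pw, List.length_cons] at this ⊢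
    push_cast at this ⊢
    linarith

/-- The cyclic sum along a duplicate free list is a sum over its cyclic permutation. -/
lemma cycle_sum (w : I → I → ℝ) (hw : ∀ a, w a a = 0) (x y : I) (l : List I)
    (hnd : (x :: (l ++ [y])).Nodup) :
    w x y + Pw w (x :: (l ++ [y])) =
      ∑ b, w ((x :: (l ++ [y])).formPerm b) b := by
  set C := x :: (l ++ [y]) with hC
  have h1 : ∑ b, w (C.formPerm b) b = ∑ b ∈ C.toFinset, w (C.formPerm b) b := by
    symm
    apply Finset.sum_subset (Finset.subset_univ _)
    intro b _ hb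
    rw [List.mem_toFinset] at hb
    rw [List.formPerm_apply_of_notMem hb, hw]
  rw [h1, List.sum_toFinset _ hnd]
  have h2 : C.map (fun b => w (C.formPerm b) b) = List.zipWith w (C.rotate 1) C := by
    apply List.ext_getElem
    · simp
    · intro n hn1 hn2
      simp only [List.getElem_map, List.getElem_zipWith, List.getElem_rotate]
      rw [List.formPerm_apply_getElem _ hnd]
  rw [h2, hC, List.rotate_cons_succ, List.rotate_zero]
  have h3 := zip_sum w x (l ++ [y]) x (by simp)
  rw [h3]
  have h4 : (x :: (l ++ [y])).getLast (by simp) = y := by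
    simp
  rw [h4]
  ring

end Diff

section Matching

variable {I Z : Type*} [Fintype I] [DecidableEq I]

/-- A maximum weight assignment together with (strict) equilibrium prices. -/
theorem exists_potential (Al : I → Z → Prop) (W : Z → I → ℝ) (T0 : Finset (Z × I))
    (hS : SSD T0 (fun p => W p.1 p.2)) (hT0 : ∀ i z, Al i z → (z, i) ∈ T0)
    (σ0 : I → Z) (hσ0 : Function.Injective σ0) (hal : ∀ i, Al i (σ0 i)) :
    ∃ σ : I → Z, Function.Injective σ ∧ (∀ i, Al i (σ i)) ∧
      ∃ (v : I → ℝ) (ε : ℝ), 0 < ε ∧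
        ∀ i j, j ≠ i → Al j (σ i) → W (σ i) j - v j + ε ≤ W (σ i) i - v i := by
  classical
  let P : Finset (Equiv.Perm I) := Finset.univ.filter (fun ρ => ∀ b, Al b (σ0 (ρ b)))
  have hP : P.Nonempty := ⟨1, by simp [P, hal]⟩
  obtain ⟨ρ0, hρ0, hmax⟩ := Finset.exists_max_image P (fun ρ => ∑ b, W (σ0 (ρ b)) b) hP
  simp only [P, Finset.mem_filter, Finset.mem_univ, true_and] at hρ0
  set σ : I → Z := fun b => σ0 (ρ0 b) with hσ
  have hσi : Function.Injective σ := hσ0.comp ρ0.injective
  -- strict maximality
  have hstrict : ∀ ρ : Equiv.Perm I, ρ ≠ 1 → (∀ b, Al b (σ (ρ b))) →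
      ∑ b, W (σ (ρ b)) b < ∑ b, W (σ b) b := by
    intro ρ hρ hA
    have hle : ∑ b, W (σ (ρ b)) b ≤ ∑ b, W (σ b) b := by
      have := hmax (ρ0 * ρ) (by
        simp only [P, Finset.mem_filter, Finset.mem_univ, true_and]
        intro b; exact hA b)
      simpa [hσ] using this
    refine lt_of_le_of_ne hle fun heq => hρ ?_
    let f1 : I ↪ Z × I := ⟨fun b => (σ (ρ b), b), fun a b h => (Prod.ext_iff.1 h).2⟩
    let f2 : I ↪ Z × I := ⟨fun b => (σ b, b), fun a b h => (Prod.ext_iff.1 h).2⟩
    have hAB : (Finset.univ.map f1) = (Finset.univ.map f2) := by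
      apply hS
      · intro p hp
        obtain ⟨b, _, rfl⟩ := Finset.mem_map.1 hp
        exact hT0 _ _ (hA b)
      · intro p hp
        obtain ⟨b, _, rfl⟩ := Finset.mem_map.1 hp
        exact hT0 _ _ (hρ0 b)
      · rw [Finset.sum_map, Finset.sum_map]
        exact heq
    ext b
    have hb : (σ (ρ b), b) ∈ Finset.univ.map f1 :=
      Finset.mem_map.2 ⟨b, Finset.mem_univ _, rfl⟩
    rw [hAB] at hb
    obtain ⟨c, _, hc⟩ := Finset.mem_map.1 hb
    have hc1 : σ c = σ (ρ b) := (Prod.ext_iff.1 hc).1
    have hc2 : c = b := (Prod.ext_iff.1 hc).2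
    subst hc2
    simpa using (hσi hc1).symm
  -- the gap
  let w : I → I → ℝ := fun a b => W (σ a) b - W (σ a) a
  have hw0 : ∀ a, w a a = 0 := fun a => by simp [w]
  have hsum : ∀ ρ : Equiv.Perm I, ∑ b, w (ρ b) b = ∑ b, W (σ (ρ b)) b - ∑ b, W (σ b) b := by
    intro ρ
    simp only [w, Finset.sum_sub_distrib]
    congr 1
    exact Equiv.sum_comp ρ (fun b => W (σ b) b)
  have hgap : ∃ ε : ℝ, 0 < ε ∧ ∀ ρ : Equiv.Perm I, ρ ≠ 1 → (∀ b, Al b (σ (ρ b))) →
      ∑ b, w (ρ b) b + ((Fintype.card I : ℝ) + 1) * ε ≤ 0 := by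
    let Q : Finset (Equiv.Perm I) :=
      Finset.univ.filter (fun ρ => ρ ≠ 1 ∧ ∀ b, Al b (σ (ρ b)))
    by_cases hQ : Q.Nonempty
    · obtain ⟨ρ1, h1, h2⟩ := Finset.exists_max_image Q (fun ρ => ∑ b, w (ρ b) b) hQ
      simp only [Q, Finset.mem_filter, Finset.mem_univ, true_and] at h1
      have h3 : ∑ b, w (ρ1 b) b < 0 := by
        rw [hsum]
        have := hstrict ρ1 h1.1 h1.2
        linarith
      have hcp : (0 : ℝ) < (Fintype.card I : ℝ) + 1 := by positivity
      refine ⟨-(∑ b, w (ρ1 b) b) / ((Fintype.card I : ℝ) + 1), div_pos (by linarith) hcp, ?_⟩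
      intro ρ hρ hA
      have h4 := h2 ρ (by simp only [Q, Finset.mem_filter, Finset.mem_univ, true_and]; exact ⟨hρ, hA⟩)
      rw [mul_div_cancel₀ _ hcp.ne']
      linarith
    · refine ⟨1, one_pos, fun ρ hρ hA => ?_⟩
      exact absurd ⟨ρ, by simp only [Q, Finset.mem_filter, Finset.mem_univ, true_and]; exact ⟨hρ, hA⟩⟩ hQ
  obtain ⟨ε, hε, hgap⟩ := hgap
  obtain ⟨v, hv⟩ := exists_diff_potential (fun a b => a ≠ b ∧ Al b (σ a))
    (fun a b => w a b + ε) (by
      intro x y l hnd hch hxy
      have hlen : (x :: (l ++ [y])).length ≤ Fintype.card I := hnd.length_le_card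
      have h1 := Pw_add_const w ε hε.le (x :: (l ++ [y]))
      have h2 := cycle_sum w hw0 x y l hnd
      set C := x :: (l ++ [y]) with hC
      have hCl : C.length = l.length + 2 := by simp [hC]
      have hne1 : C.formPerm ≠ 1 := by
        intro h
        rw [List.formPerm_eq_one_iff _ hnd] at h
        omega
      have hA : ∀ b, Al b (σ (C.formPerm b)) := by
        intro b
        by_cases hb : b ∈ C
        · obtain ⟨n, hn, rfl⟩ := List.getElem_of_mem hb
          rw [List.formPerm_apply_getElem _ hnd]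
          by_cases hn1 : n + 1 < C.length
          · have := (List.isChain_iff_getElem.1 hch) n hn1
            simp only [Nat.mod_eq_of_lt hn1]
            exact this.2
          · have hn2 : n + 1 = C.length := by omega
            simp only [hn2, Nat.mod_self]
            have e0 : C[0] = x := by simp [hC]
            have e1 : C[n] = y := by
              have hnl : n = l.length + 1 := by omega
              subst hnl
              simp [hC]
            rw [e0, e1]
            exact hxy.2
        · rw [List.formPerm_apply_of_notMem hb]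
          exact hρ0 b
      have h3 := hgap C.formPerm hne1 hA
      have h4 : ((C.length : ℝ)) * ε ≤ (Fintype.card I : ℝ) * ε := by
        apply mul_le_mul_of_nonneg_right _ hε.le
        exact_mod_cast hlen
      linarith)
  refine ⟨σ, hσi, hρ0, v, ε, hε, fun i j hji hA => ?_⟩
  have := hv i j hji.symm ⟨hji.symm, hA⟩
  simp only [w] at this
  linarith

end Matching

end Pool.Agent.Y367.Arb
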