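import Mathlib
import Pool.Agent.Y367.Arb.Potential

set_option autoImplicit false

namespace Pool.Agent.Y367.Arb

open Finset

lemma SSD.comp {T T' : Type*} [DecidableEq T] [DecidableEq T'] {S : Finset T} {g : T → ℝ}
    (h : SSD S g) (φ : T' → T) (hφ : Function.Injective φ) (S' : Finset T')
    (hS' : ∀ t ∈ S', φ t ∈ S) : SSD S' (fun t => g (φ t)) := by
  intro A B hA hB hAB
  have := h (A.map ⟨φ, hφ⟩) (B.map ⟨φ, hφ⟩)
    (by intro p hp; obtain ⟨b, hb, rfl⟩ := Finset.mem_map.1 hp; exact hS' _ (hA hb))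
    (by intro p hp; obtain ⟨b, hb, rfl⟩ := Finset.mem_map.1 hp; exact hS' _ (hB hb))
    (by rw [Finset.sum_map, Finset.sum_map]; exact hAB)
  exact Finset.map_injective _ this

section Build

variable {V E ι : Type*} [Fintype V] [Fintype E] [Fintype ι]

/-- The local condition at the node `v`. -/
def LocalAt (tl hd : E → V) (r : ι → V) (U : ι → Set V) (v : V) : Prop :=
  ∃ a : {i : ι // v ∈ U i ∧ v ≠ r i} → E, Function.Injective a ∧
    (∀ i, hd (a i) = v ∧ tl (a i) ∈ U i.1) ∧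
    (∀ i j, i ≠ j → tl (a i) = tl (a j) → tl (a i) = r i.1 ∧ r i.1 = r j.1) ∧
    (∀ i, ∀ j : ι, v ∈ U j → tl (a i) = r j → r i.1 = r j)

omit [Fintype V] [Fintype E] [Fintype ι] in
lemma root_le {tl hd : E → V} {f : V → ℕ} (hf : ∀ a, f (tl a) < f (hd a)) {r : ι → V}
    {U : ι → Set V} (hloc : ∀ v, LocalAt tl hd r U v) (j : ι) :
    ∀ (n : ℕ) (u : V), f u = n → u ∈ U j → f (r j) ≤ f u := by
  intro n
  induction n using Nat.strong_induction_on with
  | _ n ih =>
    intro u hu huU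
    by_cases h : u = r j
    · rw [h]
    · obtain ⟨a, _, h2, _, _⟩ := hloc u
      have h3 := h2 ⟨j, huU, h⟩
      have h4 := hf (a ⟨j, huU, h⟩)
      rw [h3.1] at h4
      have := ih (f (tl (a ⟨j, huU, h⟩))) (by omega) _ rfl h3.2
      omega

open Classical in
theorem build {tl hd : E → V} {f : V → ℕ} (hf : ∀ a, f (tl a) < f (hd a)) {r : ι → V}
    {U : ι → Set V} (hrU : ∀ i, r i ∈ U i) (hloc : ∀ v, LocalAt tl hd r U v) (S : Finset V) :
    (∀ a, hd a ∈ S → tl a ∈ S) →
    ∃ (g : (V ⊕ E) × ι → ℝ) (F : ι → Set E),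
      SSD (Finset.univ.filter (fun p : (V ⊕ E) × ι => ∀ u, p.1 = Sum.inl u → u ∈ S)) g ∧
      (∀ i, ∀ a ∈ F i, hd a ∈ S ∧ tl a ∈ U i ∧ hd a ∈ U i ∧ hd a ≠ r i) ∧
      (∀ i, ∀ a ∈ F i, ∀ b ∈ F i, hd a = hd b → a = b) ∧
      (∀ i, ∀ v ∈ S, v ∈ U i → v ≠ r i → ∃ a ∈ F i, hd a = v) ∧
      (∀ i, ∀ a ∈ F i, tl a = r i ∨ ((∀ j, hd a ∈ U j → tl a ≠ r j) ∧
        ∀ j, j ≠ i → tl a ∈ U j → hd a ∈ U j →
          g (Sum.inl (tl a), j) - g (Sum.inl (hd a), j)
            < g (Sum.inl (tl a), i) - g (Sum.inl (hd a), i))) ∧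
      (∀ i j, i ≠ j → ∀ a ∈ F i, a ∉ F j) := by
  refine Finset.induction_on_max_value f S ?_ ?_
  · intro _
    obtain ⟨g, _, _, hg⟩ := SSD.extend_many (S := (∅ : Finset ((V ⊕ E) × ι)))
      (g := fun _ => 0)
      (by
        intro A B hA hB _
        rw [Finset.subset_empty.1 hA, Finset.subset_empty.1 hB])
      (Finset.univ) (Finset.disjoint_empty_left _) (fun _ => 0) one_pos
    refine ⟨g, fun _ => ∅, hg.mono (by intro p _; simp), ?_, ?_, ?_, ?_, ?_⟩
    all_goals simp
  · intro v s hvs hmax ih hdown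
    have hdown' : ∀ a, hd a ∈ s → tl a ∈ s := by
      intro a ha
      rcases Finset.mem_insert.1 (hdown a (Finset.mem_insert_of_mem ha)) with h | h
      · exfalso
        have h1 := hf a
        have h2 := hmax _ ha
        rw [h] at h1
        omega
      · exact h
    have hpred : ∀ a, hd a = v → tl a ∈ s := by
      intro a ha
      rcases Finset.mem_insert.1 (hdown a (by rw [ha]; exact Finset.mem_insert_self _ _)) with h | h
      · exfalso
        have h1 := hf a
        rw [h, ha] at h1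
        omega
      · exact h
    obtain ⟨g, F, hS, hQ1, hQ2, hQ3, hQ4, hQ5⟩ := ih hdown'
    obtain ⟨a0, ha0i, ha0, ha0t, ha0r⟩ := hloc v
    -- the assignment problem at `v`
    let I := {i : ι // v ∈ U i ∧ v ≠ r i}
    let Al : I → (V ⊕ E) → Prop := fun i z =>
      (∃ b, z = Sum.inl (tl b) ∧ hd b = v ∧ tl b ∈ U i.1 ∧ ∀ j, v ∈ U j → tl b ≠ r j) ∨
      (∃ b, z = Sum.inr b ∧ hd b = v ∧ tl b = r i.1)
    let σ0 : I → (V ⊕ E) := fun i =>
      if (∃ j, v ∈ U j ∧ tl (a0 i) = r j) then Sum.inr (a0 i) else Sum.inl (tl (a0 i))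
    have hσ0 : Function.Injective σ0 := by
      intro i j hij
      by_contra hne
      simp only [σ0] at hij
      split_ifs at hij with h1 h2 h2
      · exact hne (ha0i (Sum.inr.inj hij))
      · have h3 := ha0t i j hne (Sum.inl.inj hij)
        exact h1 ⟨i.1, i.2.1, h3.1⟩
    have hal : ∀ i, Al i (σ0 i) := by
      intro i
      simp only [σ0]
      split_ifs with h1
      · right
        obtain ⟨j, hj1, hj2⟩ := h1
        exact ⟨a0 i, rfl, (ha0 i).1, by rw [hj2, ha0r i j hj1 hj2]⟩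
      · left
        refine ⟨a0 i, rfl, (ha0 i).1, (ha0 i).2, fun j hj h => h1 ⟨j, hj, h⟩⟩
    obtain ⟨σ, hσi, hσA, pot, ε, hε, hpot⟩ := exists_potential Al
      (fun z i => g (z, i.1))
      (Finset.univ.filter (fun p : (V ⊕ E) × I => ∀ u, p.1 = Sum.inl u → u ∈ s))
      (SSD.comp hS (fun p : (V ⊕ E) × I => (p.1, p.2.1))
        (by
          rintro ⟨z, i⟩ ⟨z', i'⟩ h
          rw [Prod.mk.injEq] at h
          exact Prod.ext h.1 (Subtype.ext h.2)) _
        (by
          intro p hp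
          simpa using hp))
      (by
        intro i z hz
        simp only [Finset.mem_filter, Finset.mem_univ, true_and]
        rintro u rfl
        rcases hz with ⟨b, hb, hb1, _⟩ | ⟨b, hb, _⟩
        · rw [Sum.inl.inj hb]
          exact hpred b hb1
        · exact absurd hb (by simp))
      σ0 hσ0 hal
    -- the arcs chosen at `v`
    have hb : ∀ i : I, ∃ b : E, hd b = v ∧ tl b ∈ U i.1 ∧
        ((σ i = Sum.inl (tl b) ∧ ∀ j, v ∈ U j → tl b ≠ r j) ∨ (σ i = Sum.inr b ∧ tl b = r i.1)) := by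
      intro i
      rcases hσA i with ⟨b, h1, h2, h3, h4⟩ | ⟨b, h1, h2, h3⟩
      · exact ⟨b, h2, h3, Or.inl ⟨h1, h4⟩⟩
      · exact ⟨b, h2, by rw [h3]; exact hrU i.1, Or.inr ⟨h1, h3⟩⟩
    choose b hb1 hb2 hb3 using hb
    have hbinj : ∀ i j : I, i ≠ j → b i ≠ b j := by
      intro i j hij h
      rcases hb3 i with ⟨h1, h2⟩ | ⟨h1, h2⟩ <;> rcases hb3 j with ⟨h3, h4⟩ | ⟨h3, h4⟩
      · rw [h] at h1
        exact hij (hσi (h1.trans h3.symm))
      · rw [h] at h2
        exact h2 j.1 j.2.1 h4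
      · rw [← h] at h4
        exact h4 i.1 i.2.1 h2
      · rw [h] at h1
        exact hij (hσi (h1.trans h3.symm))
    obtain ⟨g', hg1, hg2, hg3⟩ := SSD.extend_many hS
      (Finset.univ.image (fun i : ι => ((Sum.inl v : V ⊕ E), i)))
      (by
        rw [Finset.disjoint_left]
        intro p hp hp'
        obtain ⟨i, _, rfl⟩ := Finset.mem_image.1 hp'
        simp only [Finset.mem_filter, Finset.mem_univ, true_and] at hp
        exact hvs (hp v rfl))
      (fun p => if h : v ∈ U p.2 ∧ v ≠ r p.2 then pot ⟨p.2, h⟩ else 0)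
      (ε := ε / 3) (by linarith)
    have hgold : ∀ u i, u ∈ s → g' (Sum.inl u, i) = g (Sum.inl u, i) := by
      intro u i hu
      apply hg1
      intro h
      obtain ⟨j, _, hj⟩ := Finset.mem_image.1 h
      rw [Prod.mk.injEq] at hj
      exact hvs (by rw [Sum.inl.inj hj.1]; exact hu)
    have hgnew : ∀ i : I, |g' (Sum.inl v, i.1) - pot i| < ε / 3 := by
      intro i
      have := hg2 (Sum.inl v, i.1) (Finset.mem_image.2 ⟨i.1, Finset.mem_univ _, rfl⟩)
      simp only at this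
      rwa [dif_pos i.2] at this
    refine ⟨g', fun i => F i ∪ {c | ∃ h : v ∈ U i ∧ v ≠ r i, c = b ⟨i, h⟩}, ?_, ?_, ?_, ?_, ?_, ?_⟩
    · refine hg3.mono ?_
      intro p hp
      simp only [Finset.mem_filter, Finset.mem_univ, true_and, Finset.mem_union,
        Finset.mem_image] at hp ⊢
      by_cases h : p.1 = Sum.inl v
      · right
        exact ⟨p.2, by rw [← h]⟩
      · left
        intro u hu
        rcases Finset.mem_insert.1 (hp u hu) with h1 | h1
        · exact absurd (by rw [hu, h1]) h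
        · exact h1
    · rintro i c (hc | ⟨h, rfl⟩)
      · obtain ⟨h1, h2⟩ := hQ1 i c hc
        exact ⟨Finset.mem_insert_of_mem h1, h2⟩
      · rw [hb1]
        exact ⟨Finset.mem_insert_self _ _, hb2 ⟨i, h⟩, h.1, h.2⟩
    · rintro i c (hc | ⟨h, rfl⟩) d (hd' | ⟨h', rfl⟩) hcd
      · exact hQ2 i c hc d hd' hcd
      · exfalso
        rw [hb1] at hcd
        exact hvs (hcd ▸ (hQ1 i c hc).1)
      · exfalso
        rw [hb1] at hcd
        exact hvs (hcd ▸ (hQ1 i d hd').1)
      · rfl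
    · intro i w hw hwU hwr
      rcases Finset.mem_insert.1 hw with h1 | h1
      · subst h1
        exact ⟨b ⟨i, hwU, hwr⟩, Or.inr ⟨⟨hwU, hwr⟩, rfl⟩, hb1 _⟩
      · obtain ⟨c, hc, hc'⟩ := hQ3 i w h1 hwU hwr
        exact ⟨c, Or.inl hc, hc'⟩
    · rintro i c (hc | ⟨h, rfl⟩)
      · rcases hQ4 i c hc with h1 | ⟨h1, h2⟩
        · exact Or.inl h1
        · refine Or.inr ⟨h1, fun j hj hj1 hj2 => ?_⟩
          have hs := (hQ1 i c hc).1
          have hs' := hdown' c hs
          rw [hgold _ _ hs, hgold _ _ hs, hgold _ _ hs', hgold _ _ hs']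
          exact h2 j hj hj1 hj2
      · rcases hb3 ⟨i, h⟩ with ⟨h1, h2⟩ | ⟨h1, h2⟩
        · right
          rw [hb1]
          refine ⟨h2, fun j hj hj1 hj2 => ?_⟩
          have hvj : v ≠ r j := by
            rintro rfl
            have h3 := root_le hf hloc j _ _ rfl hj1
            have h4 := hf (b ⟨i, h⟩)
            rw [hb1] at h4
            omega
          have hs' : tl (b ⟨i, h⟩) ∈ s := hpred _ (hb1 _)
          have hA : Al ⟨j, hj2, hvj⟩ (σ ⟨i, h⟩) := by
            left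
            exact ⟨b ⟨i, h⟩, h1, hb1 _, hj1, h2⟩
          have h5 := hpot ⟨i, h⟩ ⟨j, hj2, hvj⟩ (by
            intro hh
            exact hj (Subtype.ext_iff.1 hh)) hA
          simp only [h1] at h5
          have h6 := hgnew ⟨i, h⟩
          have h7 := hgnew ⟨j, hj2, hvj⟩
          rw [abs_lt] at h6 h7
          rw [hgold _ _ hs', hgold _ _ hs']
          simp only at h6 h7
          linarith [h6.1, h6.2, h7.1, h7.2]
        · left; exact h2
    · rintro i j hij c (hc | ⟨h, rfl⟩) (hc' | ⟨h', h''⟩)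
      · exact hQ5 i j hij c hc hc'
      · rw [h''] at hc
        have := (hQ1 i _ hc).1
        rw [hb1] at this
        exact hvs this
      · have := (hQ1 j _ hc').1
        rw [hb1] at this
        exact hvs this
      · exact hbinj ⟨i, h⟩ ⟨j, h'⟩ (by intro hh; exact hij (Subtype.ext_iff.1 hh)) h''

end Build

end Pool.Agent.Y367.Arb
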